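import Pool.Agent.Run7.h323.CC.Defs

/-!
# Nef classes with real coefficients on toric bundles over quotients of complex tori: definitions

`X = V / Γ` is the quotient of a complex torus by a finite group, `Y → X` the toric bundle given by the
smooth complete fan with the rays `u i`, `i ∈ ι`, and the cones `σ ∈ S`, and by the line bundles `c i`
on `X` with the Chern forms `Hc i`; see `Pool.Agent.Q47.TB.Defs`. A class on `Y` is given by a divisor
`∑ a_i D_i` with real coefficients on the fibres and by a hermitian form `H` on `V`; the class of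
`O_Y(a; A)` is given by `a` and by the Chern form of `A`.
-/

set_option autoImplicit false

namespace Run7.h323.GA

open Pool.Agent.W594.SYZ2 Pool.Agent.TH735.AQ Q47.TB Run7.h323.TQ Run7.h323.CC
open Pool.Agent.Y167 (AffGrp)

variable {V : Type*} [NormedAddCommGroup V] [NormedSpace ℂ V] {Γ : AffGrp V} {ι κ : Type*}
  [Fintype ι] [Fintype κ] {n : ℕ}

/-- The divisors `∑ a_i D_i` and `∑ b_i D_i` with real coefficients on the toric variety are linearly
equivalent. -/
def LinEqR (u : ι → Fin n → ℤ) (a b : ι → ℝ) : Prop :=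
  ∃ q : Fin n → ℝ, ∀ i, a i = b i + ∑ k, q k * u i k

/-- The class given by `∑ a_i D_i` is effective on the fibres of `Y → X` (for toric varieties this is
the same as pseudoeffective). -/
def IsFibreEff (u : ι → Fin n → ℤ) (a : ι → ℝ) : Prop :=
  ∃ b : ι → ℝ, (∀ i, 0 ≤ b i) ∧ LinEqR u b a

/-- The class given by `∑ a_i D_i` and `H` is nef on `Y`. For the maximal cone `σ` the number `β_i`,
`i ∉ σ`, is the degree of the class on a curve in the fibres of `Y → X`, and the form
`H - ∑ β_i H_i` is the restriction of the class to the section `x_i = 0`, `i ∈ σ`, of `Y → X`. -/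
def IsNefR (u : ι → Fin n → ℤ) (S : Set (Set ι)) (Hc : ι → V → V → ℂ) (a : ι → ℝ)
    (H : V → V → ℂ) : Prop :=
  ∀ σ, IsMax S σ → ∃ β : ι → ℝ, (∀ i, 0 ≤ β i) ∧ (∀ i ∈ σ, β i = 0) ∧ LinEqR u β a ∧
    ∀ v, 0 ≤ (H v v - ∑ i, (β i : ℂ) * Hc i v v).re

/-- `K = O_X(m K_X)`, and `HK` is the Chern form of `K`. -/
def IsPluricanonical (Γ : AffGrp V) (m : ℕ) (K : LineBundle Γ) (HK : V → V → ℂ) : Prop :=
  1 ≤ m ∧ (∃ ρ : V → ℂ, IsRamification Γ ρ ∧ IsLogPluricanonical K m ρ (fun _ => 1)) ∧
    IsChernForm K HK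

variable {u : ι → Fin n → ℤ} {c : ι → LineBundle Γ}

/-- The restriction of `K_Y + Δ` to the fibres of `Y → X`, where `K_Y = K_X - ∑ D_i`. -/
def adjA (Δ : EffDivY u c κ) (i : ι) : ℝ := ∑ k, Δ.r k * Δ.d k i - 1

/-- The form of the class of `K_Y + Δ`, where `HK` is the Chern form of `O_X(m K_X)`. -/
noncomputable def adjH (m : ℕ) (HK : V → V → ℂ) (Hc : ι → V → V → ℂ) (Δ : EffDivY u c κ)
    (v w : V) : ℂ :=
  HK v w / m + ∑ k, (Δ.r k : ℂ) * Δ.H k v w - ∑ i, Hc i v w

end Run7.h323.GA
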