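import Pool.Agent.Run7.h323.GA.Defs
import Pool.Agent.Run7.h323.CC.Ker

/-!
# Generalised abundance: the directions in which a nef class vanishes
-/

set_option autoImplicit false
set_option linter.unusedSectionVars false

namespace Run7.h323.GA

open Pool.Agent.W594.SYZ2 Pool.Agent.W594.SYZ2.TQ Pool.Agent.TH735.AQ Pool.Agent.TH128.SYZ
open Q47.TB Run7.h323.TQ Run7.h323.CC MvPolynomial
open Pool.Agent.Y167 (AffGrp)

section real

variable {ι κ : Type*} [Fintype ι] [Fintype κ] {n : ℕ} {u : ι → Fin n → ℤ} {S : Set (Set ι)}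

theorem swap_sum (p : Fin n → ℝ) (h : ι → ℝ) :
    ∑ i, (∑ l, p l * (u i l : ℝ)) * h i = ∑ l, p l * ∑ i, (u i l : ℝ) * h i := by
  simp only [Finset.sum_mul, Finset.mul_sum]
  rw [Finset.sum_comm]
  exact Finset.sum_congr rfl fun l _ => Finset.sum_congr rfl fun i _ => by ring

/-- The inequalities on the values of the forms at one vector. -/
theorem core (hS : IsSmoothFan u S) {h : ι → ℝ} {g r : κ → ℝ} (hr : ∀ k, 0 ≤ r k)
    {supp : κ → Set (ι →₀ ℕ)} {a ak : ι → ℝ} {t x₀ : ℝ}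
    (hne : ∀ k, ∃ α, r k ≠ 0 → α ∈ supp k)
    (hdeg : ∀ α : κ → (ι →₀ ℕ), (∀ k, r k ≠ 0 → α k ∈ supp k) →
      LinEqR u (fun i => ∑ k, r k * α k i - 1) ak)
    (hocc : ∀ k, r k ≠ 0 → ∀ α ∈ supp k, 0 ≤ g k - ∑ i, (α i : ℝ) * h i)
    (hklt : ∀ b : ι → ℝ, (∀ i, 0 ≤ b i) → {i | b i ≠ 0} ∈ S → (∃ i, b i ≠ 0) →
      ∃ α : κ → (ι →₀ ℕ), (∀ k, r k ≠ 0 → α k ∈ supp k) ∧
        ∑ k, r k * ∑ i, b i * α k i < ∑ i, b i)
    (hnef : ∀ τ, IsMax S τ → ∃ β : ι → ℝ, (∀ i, 0 ≤ β i) ∧ (∀ i ∈ τ, β i = 0) ∧ LinEqR u β a ∧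
      0 ≤ x₀ - ∑ i, β i * h i)
    (hadj : ∀ τ, IsMax S τ → ∃ β : ι → ℝ, (∀ i, 0 ≤ β i) ∧ (∀ i ∈ τ, β i = 0) ∧
      LinEqR u β (fun i => t * a i - ak i) ∧
      0 ≤ t * x₀ - (∑ k, r k * g k - ∑ i, h i) - ∑ i, β i * h i)
    {βσ : ι → ℝ} (hσ0 : ∀ i, 0 ≤ βσ i) (hσa : LinEqR u βσ a)
    (hz : x₀ - ∑ i, βσ i * h i = 0) :
    (∀ l, ∑ i, (u i l : ℝ) * h i = 0) ∧
      ∀ k, r k ≠ 0 → ∀ α ∈ supp k, g k - ∑ i, (α i : ℝ) * h i = 0 := by
  classical
  set w : Fin n → ℝ := fun l => ∑ i, (u i l : ℝ) * h i with hw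
  have hsw : ∀ p : Fin n → ℝ, ∑ i, (∑ l, p l * (u i l : ℝ)) * h i = ∑ l, p l * w l :=
    fun p => swap_sum p h
  -- the value of a choice of exponents
  have hval : ∀ α : κ → (ι →₀ ℕ), ∑ k, r k * (g k - ∑ i, (α k i : ℝ) * h i) =
      (∑ k, r k * g k - ∑ i, h i) - ∑ i, (∑ k, r k * α k i - 1) * h i := by
    intro α
    simp only [mul_sub, sub_mul, Finset.sum_sub_distrib, one_mul, Finset.mul_sum, Finset.sum_mul]
    have e1 : ∑ k, ∑ i, r k * ((α k i : ℝ) * h i) = ∑ i, ∑ k, r k * (α k i : ℝ) * h i := by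
      rw [Finset.sum_comm]
      exact Finset.sum_congr rfl fun i _ => Finset.sum_congr rfl fun k _ => by ring
    rw [e1]
    ring
  have hval0 : ∀ α : κ → (ι →₀ ℕ), (∀ k, r k ≠ 0 → α k ∈ supp k) →
      ∀ k, 0 ≤ r k * (g k - ∑ i, (α k i : ℝ) * h i) := by
    intro α hα k
    by_cases hk : r k = 0
    · rw [hk, zero_mul]
    · exact mul_nonneg (hr k) (hocc k hk _ (hα k hk))
  have hw0 : w = 0 := by
    by_contra hne0
    obtain ⟨b, hb0, hb, hbw⟩ := real_complete hS (-w)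
    have hbne : ∃ i, b i ≠ 0 := by
      by_contra hcon
      push Not at hcon
      apply hne0
      funext l
      have h1 := hbw l
      rw [Finset.sum_eq_zero fun i _ => by rw [hcon i, zero_mul]] at h1
      simp only [Pi.neg_apply] at h1
      simp only [Pi.zero_apply]
      linarith
    obtain ⟨τ, hτ, hbτ⟩ := exists_max hb
    have hbv : ∀ p : Fin n → ℝ, ∑ i, b i * ∑ l, p l * (u i l : ℝ) = -∑ l, p l * w l := by
      intro p
      calc ∑ i, b i * ∑ l, p l * (u i l : ℝ) = ∑ l, p l * ∑ i, b i * u i l := by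
            simp only [Finset.mul_sum]
            rw [Finset.sum_comm]
            exact Finset.sum_congr rfl fun l _ => Finset.sum_congr rfl fun i _ => by ring
        _ = _ := by
            simp only [hbw, Pi.neg_apply, mul_neg, Finset.sum_neg_distrib]
    have hbz : ∀ β : ι → ℝ, (∀ i ∈ τ, β i = 0) → ∑ i, b i * β i = 0 := by
      intro β hβ
      refine Finset.sum_eq_zero fun i _ => ?_
      by_cases hi : b i = 0
      · rw [hi, zero_mul]
      · rw [hβ i (hbτ hi), mul_zero]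
    obtain ⟨βτ, -, hτ2, ⟨p1, hp1⟩, hτ4⟩ := hnef τ hτ
    obtain ⟨p2, hp2⟩ := hσa
    obtain ⟨β', -, h'2, ⟨p3, hp3⟩, h'4⟩ := hadj τ hτ
    -- the value at `τ`
    have hd : ∀ i, βτ i = βσ i + ∑ l, (p1 l - p2 l) * (u i l : ℝ) := by
      intro i
      simp only [sub_mul, Finset.sum_sub_distrib]
      rw [hp1, hp2]
      ring
    have e1 : ∑ i, βτ i * h i = ∑ i, βσ i * h i + ∑ l, (p1 l - p2 l) * w l := by
      rw [← hsw, ← Finset.sum_add_distrib]
      exact Finset.sum_congr rfl fun i _ => by rw [hd i]; ring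
    have e2 : 0 ≤ ∑ l, (p1 l - p2 l) * w l := by
      have h1 : ∑ i, b i * ∑ l, (p1 l - p2 l) * (u i l : ℝ) = -∑ i, b i * βσ i := by
        have h2 : ∀ i, ∑ l, (p1 l - p2 l) * (u i l : ℝ) = βτ i - βσ i := fun i => by
          rw [hd i]
          ring
        simp only [h2, mul_sub, Finset.sum_sub_distrib]
        rw [hbz βτ hτ2, zero_sub]
      rw [hbv] at h1
      have h3 : 0 ≤ ∑ i, b i * βσ i := Finset.sum_nonneg fun i _ => mul_nonneg (hb0 i) (hσ0 i)
      linarith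
    have e3 : x₀ = ∑ i, βτ i * h i := by linarith
    -- the representative of the adjoint class
    obtain ⟨α, hα, hlt⟩ := hklt b hb0 hb hbne
    obtain ⟨p4, hp4⟩ := hdeg α hα
    replace hp4 : ∀ i, ∑ k, r k * (α k i : ℝ) - 1 = ak i + ∑ l, p4 l * (u i l : ℝ) := hp4
    replace hp3 : ∀ i, β' i = t * a i - ak i + ∑ l, p3 l * (u i l : ℝ) := hp3
    have hx : ∀ i, ∑ k, r k * α k i - 1 = (t * βτ i - β' i) +
        ∑ l, (p4 l - t * p1 l + p3 l) * (u i l : ℝ) := by
      intro i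
      have h1 : ∑ l, (p4 l - t * p1 l + p3 l) * (u i l : ℝ) =
          ∑ l, p4 l * (u i l : ℝ) - t * ∑ l, p1 l * (u i l : ℝ) + ∑ l, p3 l * (u i l : ℝ) := by
        rw [Finset.mul_sum, ← Finset.sum_sub_distrib, ← Finset.sum_add_distrib]
        exact Finset.sum_congr rfl fun l _ => by ring
      rw [h1, hp4 i, hp1 i, hp3 i]
      ring
    set s : Fin n → ℝ := fun l => p4 l - t * p1 l + p3 l with hs
    have e4 : 0 < ∑ l, s l * w l := by
      have h1 : ∑ i, b i * (∑ k, r k * (α k i : ℝ) - 1) < 0 := by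
        have h2 : ∑ i, b i * (∑ k, r k * (α k i : ℝ) - 1) =
            ∑ k, r k * ∑ i, b i * α k i - ∑ i, b i := by
          simp only [mul_sub, Finset.sum_sub_distrib, mul_one, Finset.mul_sum]
          congr 1
          rw [Finset.sum_comm]
          exact Finset.sum_congr rfl fun k _ => Finset.sum_congr rfl fun i _ => by ring
        rw [h2]
        linarith
      have h3 : ∑ i, b i * (∑ k, r k * (α k i : ℝ) - 1) = -∑ l, s l * w l := by
        rw [← hbv]
        have h4 : ∀ i, b i * (∑ k, r k * (α k i : ℝ) - 1) =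
            t * (b i * βτ i) - b i * β' i + b i * ∑ l, s l * (u i l : ℝ) := fun i => by
          rw [hx i]
          ring
        rw [Finset.sum_congr rfl fun i _ => h4 i, Finset.sum_add_distrib, Finset.sum_sub_distrib,
          ← Finset.mul_sum, hbz βτ hτ2, hbz β' h'2]
        ring
      linarith
    have e5 : ∑ i, (∑ k, r k * (α k i : ℝ) - 1) * h i =
        t * ∑ i, βτ i * h i - ∑ i, β' i * h i + ∑ l, s l * w l := by
      rw [← hsw, Finset.mul_sum, ← Finset.sum_sub_distrib, ← Finset.sum_add_distrib]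
      exact Finset.sum_congr rfl fun i _ => by rw [hx i]; ring
    have e6 := Finset.sum_nonneg fun k (_ : k ∈ Finset.univ) => hval0 α hα k
    rw [hval α, e5, ← e3] at e6
    linarith
  refine ⟨fun l => congrFun hw0 l, fun k hk α hα => ?_⟩
  choose α₀ hα₀ using hne
  let α' : κ → (ι →₀ ℕ) := Function.update α₀ k α
  have hα' : ∀ k', r k' ≠ 0 → α' k' ∈ supp k' := by
    intro k' hk'
    by_cases h1 : k' = k
    · subst h1
      simp only [α', Function.update_self]
      exact hα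
    · simp only [α', Function.update_of_ne h1]
      exact hα₀ k' hk'
  obtain ⟨σ, hσ, -⟩ := exists_max hS.empty_mem
  obtain ⟨β', -, -, ⟨p3, hp3⟩, h'4⟩ := hadj σ hσ
  obtain ⟨p4, hp4⟩ := hdeg α' hα'
  replace hp4 : ∀ i, ∑ k, r k * (α' k i : ℝ) - 1 = ak i + ∑ l, p4 l * (u i l : ℝ) := hp4
  replace hp3 : ∀ i, β' i = t * a i - ak i + ∑ l, p3 l * (u i l : ℝ) := hp3
  obtain ⟨p2, hp2⟩ := hσa
  have hzero : ∀ p : Fin n → ℝ, ∑ i, (∑ l, p l * (u i l : ℝ)) * h i = 0 := by
    intro p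
    rw [hsw, hw0]
    simp
  have e1 : ∑ i, βσ i * h i = ∑ i, a i * h i := by
    have h1 : ∀ i, βσ i * h i = a i * h i + (∑ l, p2 l * (u i l : ℝ)) * h i := fun i => by
      rw [hp2 i]
      ring
    rw [Finset.sum_congr rfl fun i _ => h1 i, Finset.sum_add_distrib, hzero, add_zero]
  have e2 : ∑ i, β' i * h i = t * ∑ i, a i * h i - ∑ i, ak i * h i := by
    have h1 : ∀ i, β' i * h i = t * (a i * h i) - ak i * h i + (∑ l, p3 l * (u i l : ℝ)) * h i :=
      fun i => by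
        rw [hp3 i]
        ring
    rw [Finset.sum_congr rfl fun i _ => h1 i, Finset.sum_add_distrib, hzero, add_zero,
      Finset.sum_sub_distrib, Finset.mul_sum]
  have e3 : ∑ i, (∑ k, r k * (α' k i : ℝ) - 1) * h i = ∑ i, ak i * h i := by
    have h1 : ∀ i, (∑ k, r k * (α' k i : ℝ) - 1) * h i =
        ak i * h i + (∑ l, p4 l * (u i l : ℝ)) * h i := fun i => by
      rw [hp4 i]
      ring
    rw [Finset.sum_congr rfl fun i _ => h1 i, Finset.sum_add_distrib, hzero, add_zero]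
  have e4 : ∑ k, r k * (g k - ∑ i, (α' k i : ℝ) * h i) ≤ 0 := by
    rw [hval α', e3]
    rw [e2] at h'4
    have h5 : x₀ = ∑ i, a i * h i := by linarith
    rw [h5] at h'4
    linarith
  have e5 := (Finset.sum_eq_zero_iff_of_nonneg fun k _ => hval0 α' hα' k).1
    (le_antisymm e4 (Finset.sum_nonneg fun k _ => hval0 α' hα' k)) k (Finset.mem_univ k)
  have e6 := (mul_eq_zero.1 e5).resolve_left hk
  simpa only [α', Function.update_self] using e6

end real

section forms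

variable {V : Type*} [NormedAddCommGroup V] [NormedSpace ℂ V] [FiniteDimensional ℂ V] {Γ : AffGrp V}
  {ι : Type*} [Fintype ι] {n : ℕ} {u : ι → Fin n → ℤ} {S : Set (Set ι)} {c : ι → LineBundle Γ}
  {Hc : ι → V → V → ℂ} {κ : Type*} [Fintype κ]

/-- The forms of the coefficients and of the twists vanish on `e`. -/
def KV (Hc : ι → V → V → ℂ) (Δ : EffDivY u c κ) (e : V) : Prop :=
  (∀ k, Δ.r k ≠ 0 → ∀ α, Occ Δ k α → ∀ w, Δ.H k e w - ∑ i, (α i : ℂ) * Hc i e w = 0) ∧
    ∀ (q : Fin n → ℝ) (w : V), Cf u Hc q e w = 0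

omit [FiniteDimensional ℂ V] in
theorem klt_support (hS0 : ∅ ∈ S) {Δ : EffDivY u c κ} {v : V}
    (hklt : ∀ x : ι → ℂ, {i | x i = 0} ∈ S →
      ∃ r > 0, ∫⁻ y in Metric.ball x r, ∏ k, ‖eval y (Δ.F k v)‖ₑ ^ (-(2 * Δ.r k)) < ⊤) (k : κ) :
    ∃ α : ι →₀ ℕ, Δ.r k ≠ 0 → α ∈ (Δ.F k v).support := by
  classical
  by_cases hk : Δ.r k = 0
  · exact ⟨0, fun h => absurd hk h⟩
  · by_contra hcon
    push Not at hcon
    have hF0 : Δ.F k v = 0 := by
      rw [← support_eq_empty]
      ext α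
      constructor
      · intro h
        exact absurd h (hcon α).2
      · intro h
        simp at h
    have h1 : {i : ι | (fun _ => (1 : ℂ)) i = 0} ∈ S := by
      have : {i : ι | (fun _ : ι => (1 : ℂ)) i = 0} = ∅ := by
        ext i
        simp
      rw [this]
      exact hS0
    obtain ⟨r, hr, h2⟩ := hklt _ h1
    have hrk : 0 < Δ.r k := lt_of_le_of_ne (Δ.nonneg k) (Ne.symm hk)
    have h3 : (fun y : ι → ℂ => ∏ k, ‖eval y (Δ.F k v)‖ₑ ^ (-(2 * Δ.r k))) =
        fun _ => (⊤ : ENNReal) := by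
      funext y
      rw [← Finset.mul_prod_erase Finset.univ _ (Finset.mem_univ k)]
      have h4 : ‖eval y (Δ.F k v)‖ₑ ^ (-(2 * Δ.r k)) = ⊤ := by
        rw [hF0, map_zero, enorm_zero, ENNReal.zero_rpow_of_neg (by linarith)]
      rw [h4, ENNReal.top_mul]
      refine Finset.prod_ne_zero_iff.2 fun k' _ h => ?_
      rcases ENNReal.rpow_eq_zero_iff.1 h with ⟨-, h2⟩ | ⟨h1, -⟩
      · have := Δ.nonneg k'
        linarith
      · exact enorm_ne_top h1
    rw [h3, MeasureTheory.lintegral_const, MeasureTheory.Measure.restrict_apply_univ,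
      ENNReal.top_mul] at h2
    · exact absurd h2 (lt_irrefl _)
    · exact (Metric.measure_ball_pos MeasureTheory.volume _ hr).ne'

omit [FiniteDimensional ℂ V] in
theorem occ_lin {Δ : EffDivY u c κ} {k : κ} {α : ι →₀ ℕ} (hα : Occ Δ k α) :
    ∃ p : Fin n → ℝ, ∀ i, (α i : ℝ) = Δ.d k i + ∑ l, p l * u i l := by
  obtain ⟨v, hv⟩ := hα
  obtain ⟨p, hp⟩ := (Δ.sect k).deg v α (mem_support_iff.2 hv)
  refine ⟨fun l => p l, fun i => ?_⟩
  have h3 : ((α i : ℤ) : ℝ) = ((Δ.d k i + ∑ l, p l * u i l : ℤ) : ℝ) :=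
    congrArg (fun z : ℤ => (z : ℝ)) (hp i)
  push_cast at h3
  exact h3

omit [FiniteDimensional ℂ V] in
theorem choice_lin {Δ : EffDivY u c κ} {α : κ → (ι →₀ ℕ)}
    (hα : ∀ k, Δ.r k ≠ 0 → Occ Δ k (α k)) :
    LinEqR u (fun i => ∑ k, Δ.r k * α k i - 1) (adjA Δ) := by
  classical
  have h1 : ∀ k, ∃ p : Fin n → ℝ, Δ.r k ≠ 0 → ∀ i, (α k i : ℝ) = Δ.d k i + ∑ l, p l * u i l := by
    intro k
    by_cases hk : Δ.r k = 0
    · exact ⟨0, fun h => absurd hk h⟩
    · obtain ⟨p, hp⟩ := occ_lin (hα k hk)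
      exact ⟨p, fun _ => hp⟩
  choose p hp using h1
  refine ⟨fun l => ∑ k, Δ.r k * p k l, fun i => ?_⟩
  have h2 : ∀ k, Δ.r k * α k i = Δ.r k * Δ.d k i + Δ.r k * ∑ l, p k l * u i l := by
    intro k
    by_cases hk : Δ.r k = 0
    · rw [hk]
      ring
    · rw [hp k hk i]
      ring
  have h3 : ∑ k, Δ.r k * ∑ l, p k l * u i l = ∑ l, (∑ k, Δ.r k * p k l) * u i l := by
    simp only [Finset.mul_sum, Finset.sum_mul]
    rw [Finset.sum_comm]
    exact Finset.sum_congr rfl fun l _ => Finset.sum_congr rfl fun k _ => by ring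
  simp only [Finset.sum_congr rfl fun k _ => h2 k, Finset.sum_add_distrib, h3, adjA]
  ring

/-- The differences of the exponents span. -/
theorem diff_span' (hS : IsSmoothFan u S) {Δ : EffDivY u c κ} (heff : IsFibreEff u (adjA Δ)) {v : V}
    (hklt : ∀ x : ι → ℂ, {i | x i = 0} ∈ S →
      ∃ r > 0, ∫⁻ y in Metric.ball x r, ∏ k, ‖eval y (Δ.F k v)‖ₑ ^ (-(2 * Δ.r k)) < ⊤)
    {w : Fin n → ℝ} (hw : ∀ q, Diff Δ q → ∑ l, q l * w l = 0) : w = 0 := by
  classical
  by_contra hne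
  obtain ⟨b, hb0, q0, hq0⟩ := heff
  have key : ∀ w' : Fin n → ℝ, w' ≠ 0 → ∃ α : κ → (ι →₀ ℕ),
      (∀ k, Δ.r k ≠ 0 → α k ∈ (Δ.F k v).support) ∧ ∃ q : Fin n → ℝ,
        (∀ i, ∑ k, Δ.r k * α k i - 1 - b i = ∑ l, q l * u i l) ∧ ∑ l, q l * w' l < 0 := by
    intro w' hw'
    obtain ⟨a, ha0, ha, haw⟩ := real_complete hS w'
    have hne : ∃ i, a i ≠ 0 := by
      by_contra hcon
      push Not at hcon
      apply hw'
      funext k
      rw [← haw k]
      exact Finset.sum_eq_zero fun i _ => by rw [hcon i, zero_mul]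
    obtain ⟨α, hα, hlt⟩ := weights_klt hS.empty_mem Δ.nonneg hklt a ha0 ha hne
    obtain ⟨p, hp⟩ := choice_lin (Δ := Δ) (α := α)
      fun k hk => ⟨v, mem_support_iff.1 (hα k hk)⟩
    replace hp : ∀ i, ∑ k, Δ.r k * (α k i : ℝ) - 1 = adjA Δ i + ∑ l, p l * (u i l : ℝ) := hp
    have hq : ∀ i, ∑ k, Δ.r k * α k i - 1 - b i = ∑ l, (p l - q0 l) * u i l := by
      intro i
      simp only [sub_mul, Finset.sum_sub_distrib]
      rw [hp i, hq0 i]
      ring
    refine ⟨α, hα, fun l => p l - q0 l, hq, ?_⟩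
    have h1 : ∑ l, (p l - q0 l) * w' l = ∑ i, a i * (∑ k, Δ.r k * α k i - 1 - b i) := by
      calc ∑ l, (p l - q0 l) * w' l = ∑ l, (p l - q0 l) * ∑ i, a i * u i l := by simp only [haw]
        _ = ∑ i, a i * ∑ l, (p l - q0 l) * u i l := by
            simp only [Finset.mul_sum]
            rw [Finset.sum_comm]
            exact Finset.sum_congr rfl fun i _ => Finset.sum_congr rfl fun l _ => by ring
        _ = _ := Finset.sum_congr rfl fun i _ => by rw [hq]
    have h2 : ∑ i, a i * (∑ k, Δ.r k * α k i - 1 - b i) =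
        ∑ k, Δ.r k * ∑ i, a i * α k i - ∑ i, a i - ∑ i, a i * b i := by
      simp only [mul_sub, Finset.sum_sub_distrib, mul_one, Finset.mul_sum]
      congr 2
      rw [Finset.sum_comm]
      exact Finset.sum_congr rfl fun i _ => Finset.sum_congr rfl fun k _ => by ring
    have h3 : 0 ≤ ∑ i, a i * b i := Finset.sum_nonneg fun i _ => mul_nonneg (ha0 i) (hb0 i)
    rw [h1, h2]
    linarith
  obtain ⟨α, hα, q, hq, h3⟩ := key w hne
  obtain ⟨β, hβ, p, hp, h4⟩ := key (-w) (neg_ne_zero.2 hne)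
  have h4' : 0 < ∑ l, p l * w l := by
    simp only [Pi.neg_apply, mul_neg, Finset.sum_neg_distrib] at h4
    linarith
  -- the difference is a combination of differences of exponents
  have h5 : ∀ k, ∃ t : Fin n → ℝ, Δ.r k ≠ 0 → Diff Δ t ∧
      ∀ i, (α k i : ℝ) - β k i = ∑ l, t l * u i l := by
    intro k
    by_cases hk : Δ.r k = 0
    · exact ⟨0, fun h => absurd hk h⟩
    · have o1 : Occ Δ k (α k) := ⟨v, mem_support_iff.1 (hα k hk)⟩
      have o2 : Occ Δ k (β k) := ⟨v, mem_support_iff.1 (hβ k hk)⟩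
      obtain ⟨p1, hp1⟩ := occ_lin o1
      obtain ⟨p2, hp2⟩ := occ_lin o2
      have h6 : ∀ i, (α k i : ℝ) - β k i = ∑ l, (p1 l - p2 l) * u i l := by
        intro i
        rw [hp1, hp2]
        simp only [sub_mul, Finset.sum_sub_distrib]
        ring
      exact ⟨fun l => p1 l - p2 l, fun _ => ⟨⟨k, hk, α k, β k, o1, o2, h6⟩, h6⟩⟩
  choose t ht using h5
  have h6 : ∀ i, ∑ l, (q l - p l - ∑ k, Δ.r k * t k l) * u i l = 0 := by
    intro i
    have e1 : ∑ l, (∑ k, Δ.r k * t k l) * u i l = ∑ k, Δ.r k * ((α k i : ℝ) - β k i) := by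
      have e2 : ∀ k, Δ.r k * ((α k i : ℝ) - β k i) = Δ.r k * ∑ l, t k l * u i l := by
        intro k
        by_cases hk : Δ.r k = 0
        · rw [hk, zero_mul, zero_mul]
        · rw [(ht k hk).2 i]
      rw [Finset.sum_congr rfl fun k _ => e2 k]
      simp only [Finset.mul_sum, Finset.sum_mul]
      rw [Finset.sum_comm]
      exact Finset.sum_congr rfl fun l _ => Finset.sum_congr rfl fun k _ => by ring
    simp only [sub_mul, Finset.sum_sub_distrib]
    rw [← hq i, ← hp i, e1]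
    simp only [mul_sub, Finset.sum_sub_distrib]
    ring
  -- so it vanishes
  have h7 : ∀ s : Fin n → ℝ, (∀ i, ∑ l, s l * u i l = 0) → s = 0 := by
    intro s hs
    obtain ⟨σ, hσ, -⟩ := exists_max hS.empty_mem
    obtain ⟨b, hb⟩ := exists_dual hS hσ
    funext k
    have := hb.principal s k
    simp only [hs, mul_zero, Finset.sum_const_zero] at this
    exact this.symm
  have h8 := h7 (fun l => q l - p l - ∑ k, Δ.r k * t k l) h6
  have h9 : ∀ l, q l - p l = ∑ k, Δ.r k * t k l := fun l => by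
    have := congrFun h8 l
    simp only [Pi.zero_apply] at this
    linarith
  have h10 : ∑ l, q l * w l - ∑ l, p l * w l = 0 := by
    rw [← Finset.sum_sub_distrib]
    have e1 : ∀ l, q l * w l - p l * w l = ∑ k, Δ.r k * (t k l * w l) := fun l => by
      rw [← sub_mul, h9 l, Finset.sum_mul]
      exact Finset.sum_congr rfl fun k _ => by ring
    rw [Finset.sum_congr rfl fun l _ => e1 l, Finset.sum_comm]
    refine Finset.sum_eq_zero fun k _ => ?_
    by_cases hk : Δ.r k = 0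
    · simp [hk]
    · rw [← Finset.mul_sum, hw _ (ht k hk).1, mul_zero]
  linarith

/-- A vector fixed by the linear parts on which the nef class vanishes: there the forms of the
coefficients and of the twists vanish. -/
theorem kv_of_nef (hS : IsSmoothFan u S) (hΓ : IsTorusQuotient Γ)
    (hc : ∀ i, IsChernForm (c i) (Hc i)) {Δ : EffDivY u c κ} (hklt : IsKltY S Δ)
    (heff : IsFibreEff u (adjA Δ)) {m : ℕ} {K : LineBundle Γ} {HK : V → V → ℂ}
    (hK : IsPluricanonical Γ m K HK) {a : ι → ℝ} {HA : V → V → ℂ} {t : ℝ}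
    (hnef : IsNefR u S Hc a HA)
    (hadj : IsNefR u S Hc (fun i => t * a i - adjA Δ i)
      fun v w => t * HA v w - adjH m HK Hc Δ v w)
    {e : V} (he : ∀ γ ∈ Γ, γ.linear e = e) {β : ι → ℝ} (hβ0 : ∀ i, 0 ≤ β i) (hβ : LinEqR u β a)
    (hz : (HA e e - ∑ i, (β i : ℂ) * Hc i e e).re = 0) : KV Hc Δ e := by
  classical
  obtain ⟨hm, ⟨ρ, hρ, hKρ⟩, hHK⟩ := hK
  obtain ⟨v, hklt⟩ := hklt
  have hmir : (HK e e).re = 0 :=
    Pool.Agent.Y167.mirror_zero hΓ hHK hρ hm hKρ fun γ hγ _ _ => he γ hγ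
  have hre : ∀ (x : ℂ) (b : ι → ℝ), (x - ∑ i, (b i : ℂ) * Hc i e e).re =
      x.re - ∑ i, b i * (Hc i e e).re := by
    intro x b
    rw [Complex.sub_re, Complex.re_sum]
    congr 1
    exact Finset.sum_congr rfl fun i _ => Complex.re_ofReal_mul _ _
  have hren : ∀ (x : ℂ) (b : ι →₀ ℕ), (x - ∑ i, (b i : ℂ) * Hc i e e).re =
      x.re - ∑ i, (b i : ℝ) * (Hc i e e).re := by
    intro x b
    rw [Complex.sub_re, Complex.re_sum]
    congr 1
    refine Finset.sum_congr rfl fun i _ => ?_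
    have : ((b i : ℕ) : ℂ) = ((b i : ℝ) : ℂ) := by push_cast; rfl
    rw [this, Complex.re_ofReal_mul]
  have hadjre : (adjH m HK Hc Δ e e).re =
      ∑ k, Δ.r k * (Δ.H k e e).re - ∑ i, (Hc i e e).re := by
    rw [adjH, Complex.sub_re, Complex.add_re, Complex.div_natCast_re, hmir, zero_div, zero_add,
      Complex.re_sum, Complex.re_sum]
    congr 1
    exact Finset.sum_congr rfl fun k _ => Complex.re_ofReal_mul _ _
  have hcore := core hS (h := fun i => (Hc i e e).re) (g := fun k => (Δ.H k e e).re)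
    (r := Δ.r) Δ.nonneg (supp := fun k => {α | Occ Δ k α}) (a := a) (ak := adjA Δ) (t := t)
    (x₀ := (HA e e).re)
    (fun k => by
      obtain ⟨α, hα⟩ := klt_support hS.empty_mem hklt k
      exact ⟨α, fun hk => ⟨v, mem_support_iff.1 (hα hk)⟩⟩)
    (fun α hα => choice_lin hα)
    (fun k _ α hα => by
      have h1 := occ_nef hΓ hc hα e
      rwa [hren] at h1)
    (fun b hb0 hb hbne => by
      obtain ⟨α, hα, hlt⟩ := weights_klt hS.empty_mem Δ.nonneg hklt b hb0 hb hbne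
      exact ⟨α, fun k hk => ⟨v, mem_support_iff.1 (hα k hk)⟩, hlt⟩)
    (fun τ hτ => by
      obtain ⟨β', h1, h2, h3, h4⟩ := hnef τ hτ
      refine ⟨β', h1, h2, h3, ?_⟩
      have h5 := h4 e
      rwa [hre] at h5)
    (fun τ hτ => by
      obtain ⟨β', h1, h2, h3, h4⟩ := hadj τ hτ
      refine ⟨β', h1, h2, h3, ?_⟩
      have h5 := h4 e
      rwa [hre, Complex.sub_re, Complex.re_ofReal_mul, hadjre] at h5)
    hβ0 hβ (by rwa [hre] at hz)
  obtain ⟨hw, hz'⟩ := hcore
  have hA : ∀ k, Δ.r k ≠ 0 → ∀ α, Occ Δ k α → ∀ w,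
      Δ.H k e w - ∑ i, (α i : ℂ) * Hc i e w = 0 := by
    intro k hk α hα w
    refine h_isotropic (herm_sub hc k α) (occ_nef hΓ hc hα) e ?_ w
    rw [hren]
    exact hz' k hk α hα
  refine ⟨hA, ?_⟩
  have hdiff : ∀ (α β : ι →₀ ℕ) (q : Fin n → ℝ), (∀ i, (α i : ℝ) - β i = ∑ l, q l * u i l) →
      ∀ a b : V, ∑ i, (α i : ℂ) * Hc i a b - ∑ i, (β i : ℂ) * Hc i a b = Cf u Hc q a b := by
    intro α β q hq a b
    rw [← Finset.sum_sub_distrib, Cf]
    refine Finset.sum_congr rfl fun i _ => ?_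
    rw [← hq i]
    push_cast
    ring
  -- the subspace of the `q`
  let Q : Submodule ℝ (Fin n → ℝ) :=
    { carrier := {q | ∀ w, Cf u Hc q e w = 0}
      add_mem' := by
        intro p q hp hq w
        have h1 : Cf u Hc (p + q) e w = Cf u Hc p e w + Cf u Hc q e w := by
          simp only [Cf, Pi.add_apply, add_mul, Finset.sum_add_distrib, Complex.ofReal_add]
        rw [h1, hp w, hq w, add_zero]
      zero_mem' := fun w => by simp [Cf]
      smul_mem' := by
        intro t q hq w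
        have h1 : Cf u Hc (t • q) e w = t * Cf u Hc q e w := by
          simp only [Cf]
          rw [Finset.mul_sum]
          refine Finset.sum_congr rfl fun i _ => ?_
          have h2 : ∑ k, (t • q) k * (u i k : ℝ) = t * ∑ k, q k * u i k := by
            rw [Finset.mul_sum]
            exact Finset.sum_congr rfl fun k _ => by rw [Pi.smul_apply, smul_eq_mul, mul_assoc]
          rw [h2]
          push_cast
          ring
        rw [h1, hq w, mul_zero] }
  have hQ : Q = ⊤ := by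
    by_contra hne
    obtain ⟨f, hf0, hf⟩ := Submodule.exists_le_ker_of_lt_top Q (lt_top_iff_ne_top.2 hne)
    apply hf0
    have h1 : (fun l => f (Pi.single l 1)) = (0 : Fin n → ℝ) := by
      refine diff_span' hS heff hklt fun q hq => ?_
      obtain ⟨k, hk, α, β, hα, hβ, hαβ⟩ := hq
      have h2 : q ∈ Q := fun w => by
        rw [← hdiff α β q hαβ]
        have e1 := hA k hk α hα w
        have e2 := hA k hk β hβ w
        linear_combination e2 - e1
      have h3 : f q = 0 := hf h2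
      rw [← h3, f.pi_apply_eq_sum_univ q]
      refine Finset.sum_congr rfl fun l _ => ?_
      rw [smul_eq_mul]
      congr 2
      funext l'
      rw [Pi.single_apply]
      by_cases h : l = l'
      · rw [if_pos h, if_pos h.symm]
      · rw [if_neg h, if_neg (Ne.symm h)]
    refine LinearMap.pi_ext' fun l => LinearMap.ext_ring ?_
    exact congrFun h1 l
  intro q w'
  have : q ∈ Q := by
    rw [hQ]
    exact Submodule.mem_top
  exact this w'

end forms

end Run7.h323.GA
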