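import Pool.Agent.Run7.h323.GA.Unif
import Pool.Agent.Q47.EB.Nef

/-!
# Generalised abundance for klt pairs on toric bundles over quotients of complex tori
-/

set_option autoImplicit false
set_option linter.unusedSectionVars false

namespace Run7.h323.GA

open Pool.Agent.W594.SYZ2 Pool.Agent.TH735.AQ Pool.Agent.TH128.SYZ
open Q47.TB Q47.EB Run7.h323.TQ Run7.h323.CC MvPolynomial
open Pool.Agent.W594.SYZ2.TQ (IsPot ker h_isotropic tr tr_apply tw_mul tw_add_ker tw_tr_ker chi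
  chi_eq chi_add chi_zero tw_ne_zero h_add_right mem_ker Lin mem_Lin finite_Lin)
open Pool.Agent.Y167 (AffGrp section_ker)

section fan

variable {ι : Type*} [Fintype ι] {n : ℕ} {u : ι → Fin n → ℤ} {S : Set (Set ι)}

/-- Integral nef classes have integral representatives. -/
theorem int_rep (hS : IsSmoothFan u S) {σ : Set ι} (hσ : IsMax S σ) {a : ι → ℤ} {β : ι → ℝ}
    (h0 : ∀ i, 0 ≤ β i) (hz : ∀ i ∈ σ, β i = 0) (h : LinEqR u β fun i => (a i : ℝ)) :
    ∃ β' : ι → ℕ, (∀ i, (β' i : ℝ) = β i) ∧ LinEquiv u (fun i => (β' i : ℤ)) a := by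
  obtain ⟨q, hq⟩ := h
  obtain ⟨b, hb⟩ := exists_dual hS hσ
  let p : Fin n → ℤ := fun k => -∑ l, b k l * a l
  have h1 : ∀ k, q k = (p k : ℝ) := by
    intro k
    have h2 := hb.principal q k
    rw [← h2]
    simp only [p]
    push_cast
    rw [← Finset.sum_neg_distrib]
    refine Finset.sum_congr rfl fun l _ => ?_
    by_cases hl : l ∈ σ
    · have h3 := hq l
      rw [hz l hl] at h3
      have h4 : ∑ m, q m * (u l m : ℝ) = -(a l : ℝ) := by linarith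
      rw [h4]
      ring
    · rw [hb.supp k l hl]
      simp
  have hβ : ∀ i, β i = ((a i + ∑ k, p k * u i k : ℤ) : ℝ) := by
    intro i
    rw [hq i]
    push_cast
    congr 1
    exact Finset.sum_congr rfl fun k _ => by rw [h1 k]
  have hnn : ∀ i, 0 ≤ a i + ∑ k, p k * u i k := fun i => by
    have h5 := h0 i
    rw [hβ i] at h5
    exact_mod_cast h5
  refine ⟨fun i => (a i + ∑ k, p k * u i k).toNat, fun i => ?_, p, fun i => ?_⟩
  · rw [hβ i]
    have h6 := Int.toNat_of_nonneg (hnn i)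
    exact_mod_cast congrArg (fun z : ℤ => (z : ℝ)) h6
  · exact Int.toNat_of_nonneg (hnn i)

end fan

variable {V : Type*} [NormedAddCommGroup V] [NormedSpace ℂ V] [FiniteDimensional ℂ V] {Γ : AffGrp V}
  {ι : Type*} [Fintype ι] {n : ℕ} {u : ι → Fin n → ℤ} {S : Set (Set ι)} {c : ι → LineBundle Γ}
  {Hc : ι → V → V → ℂ} {κ : Type*} [Fintype κ] {Δ : EffDivY u c κ} {G : ι → V → ℂ}

/-- An explicit power is generated by global sections, if the character of the kernel lattice is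
torsion. -/
theorem gg_of_root' (hΓ : IsTorusQuotient Γ) {L : LineBundle Γ} {H : V → V → ℂ} {F : V → ℂ}
    (hH : IsHermitian H) (hF : IsPot L H F) (hn : IsNefForm H) {N : ℕ} (hN : 1 ≤ N)
    (hroot : ∀ b ∈ latt Γ, b ∈ ker hH → chi L F b ^ N = 1) :
    GG (L.pow (Nat.card (Lin Γ) * N * (4 * mink (Module.finrank ℂ V)))) := by
  let n := Module.finrank ℂ (V ⧸ ker hH)
  let e : (V ⧸ ker hH) ≃ₗ[ℂ] (Fin n → ℂ) := (Module.finBasis ℂ (V ⧸ ker hH)).equivFun
  let π : V →ₗ[ℂ] (Fin n → ℂ) := (e : (V ⧸ ker hH) →ₗ[ℂ] (Fin n → ℂ)) ∘ₗ (ker hH).mkQ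
  have T : Sit Γ L H F π hH N := by
    refine ⟨hΓ, hF, hn, ?_, ?_, hN, hroot⟩
    · exact e.surjective.comp (ker hH).mkQ_surjective
    · intro v
      change e ((ker hH).mkQ v) = 0 ↔ v ∈ ker hH
      rw [LinearEquiv.map_eq_zero_iff, Submodule.mkQ_apply, Submodule.Quotient.mk_eq_zero]
  have h1 := gg_of_sit T (ample_gg T.base (HA_chern T) (HA_pos T))
  refine h1.mul ?_
  have h3 : Nat.card (Lin (Pool.Agent.W594.SYZ2.TQ.Del Γ π)) ∣ mink (Module.finrank ℂ V) := by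
    refine (card_Lin_dvd T.base).trans (mink_dvd ?_)
    rw [Module.finrank_fin_fun]
    exact Submodule.finrank_quotient_le _
  exact Nat.mul_dvd_mul (dvd_refl _) (Nat.mul_dvd_mul (dvd_refl 4) h3)

/-- The potential of `L ^ k ⊗ P`, `P` flat. -/
theorem pot_tensor {L : LineBundle Γ} {H : V → V → ℂ} {F : V → ℂ} (hF : IsPot L H F)
    {P : LineBundle Γ} (hP : IsFlat P) (k : ℕ) :
    IsPot (tensor (L.pow k) P) (fun v w => (k : ℂ) * H v w) fun v => (k : ℂ) * F v := by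
  refine ⟨hF.1.const_mul _, fun γ v => ?_⟩
  have hMr : ∀ z : ℂ, ((k : ℂ) * z).re = (k : ℝ) * z.re := fun z => by
    have : ((k : ℕ) : ℂ) = ((k : ℝ) : ℂ) := by push_cast; rfl
    rw [this, Complex.re_ofReal_mul]
  have h1 : ‖(tensor (L.pow k) P).e γ v‖ ^ 2 = (‖L.e γ v‖ ^ 2) ^ k := by
    change ‖L.e γ v ^ k * P.e γ v‖ ^ 2 = _
    rw [norm_mul, hP.2 γ v, mul_one, norm_pow, ← pow_mul, ← pow_mul, mul_comm]
  rw [h1, hF.2, ← Real.exp_nat_mul]
  simp only [hMr]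
  congr 1
  ring

theorem herm_nat {H : V → V → ℂ} (hH : IsHermitian H) (k : ℕ) :
    IsHermitian fun v w => (k : ℂ) * H v w := by
  refine ⟨fun u v w => ?_, fun a v w => ?_, fun v w => ?_⟩
  · rw [hH.add_left, mul_add]
  · rw [hH.smul_left]
    ring
  · rw [map_mul, ← hH.symm, Complex.conj_natCast]

/-- The character of `L ^ k ⊗ P`. -/
theorem chi_tensor {L : LineBundle Γ} {F : V → ℂ} (ℓ : V →ₗ[ℝ] ℝ)
    (hℓ : ∀ γ ∈ Γ, ∀ v, ℓ (γ.linear v) = ℓ v) (k : ℕ) {b : V} (hb : b ∈ latt Γ) :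
    chi (tensor (L.pow k) (flat ℓ hℓ)) (fun v => (k : ℂ) * F v) b =
      chi L F b ^ k * Complex.exp ((ℓ b : ℂ) * Complex.I) := by
  have h1 : ((tr b hb : Γ) : V ≃ᵃ[ℂ] V) 0 = b := by rw [tr_apply, add_zero]
  rw [chi_eq hb, chi_eq hb, TQ.tw, TQ.tw, h1]
  have h2 : (tensor (L.pow k) (flat ℓ hℓ)).e (tr b hb) 0 =
      L.e (tr b hb) 0 ^ k * Complex.exp ((ℓ b : ℂ) * Complex.I) := by
    change L.e (tr b hb) 0 ^ k *
      Complex.exp ((ℓ (((tr b hb : Γ) : V ≃ᵃ[ℂ] V) 0) : ℂ) * Complex.I) = _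
    rw [h1]
  rw [h2, mul_pow, ← Complex.exp_nat_mul]
  have h3 : Complex.exp ((k : ℂ) * F 0 - (k : ℂ) * F b) = Complex.exp ((k : ℂ) * (F 0 - F b)) := by
    congr 1
    ring
  rw [h3]
  ring

/-- Monomial sections. -/
theorem isSection_mono {d : ι → ℤ} {A P : LineBundle Γ} {M K : ℕ} {β : ι → ℕ}
    (hβ : LinEquiv u (fun i => (β i : ℤ)) d) {s : V → ℂ}
    (hs : ((tensor ((Q47.TB.tw A c 1 β).pow M) P).pow K).IsSection s) :
    IsSection u c (fun i => (M * K : ℕ) * d i) (tensor (A.pow (M * K)) (P.pow K)).e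
      (fun v => monomial (Finsupp.equivFunOnFinite.symm fun i => M * K * β i) (s v)) := by
  classical
  refine ⟨fun α => ?_, fun v α hα => ?_, fun γ v x => ?_⟩
  · simp only [coeff_monomial]
    split_ifs with h
    · exact hs.holo
    · exact differentiable_const _
  · rw [mem_support_iff, coeff_monomial] at hα
    have h1 : (Finsupp.equivFunOnFinite.symm fun i => M * K * β i) = α := by
      by_contra hne
      rw [if_neg hne] at hα
      exact hα rfl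
    obtain ⟨q, hq⟩ := hβ
    refine ⟨fun k => (M * K : ℕ) * q k, fun i => ?_⟩
    rw [← h1]
    simp only [Finsupp.equivFunOnFinite_symm_apply_apply]
    have h3 : (β i : ℤ) = d i + ∑ k, q k * u i k := hq i
    push_cast
    rw [h3, mul_add, Finset.mul_sum]
    congr 1
    exact Finset.sum_congr rfl fun k _ => by ring
  · rw [eval_monomial, eval_monomial, Finsupp.prod_fintype _ _ fun i => pow_zero _,
      Finsupp.prod_fintype _ _ fun i => pow_zero _]
    simp only [Finsupp.equivFunOnFinite_symm_apply_apply, mul_pow, Finset.prod_mul_distrib]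
    have h1 := hs.eq γ v
    have h2 : ((tensor ((Q47.TB.tw A c 1 β).pow M) P).pow K).e γ v =
        (tensor (A.pow (M * K)) (P.pow K)).e γ v * (∏ i, (c i).e γ v ^ (M * K * β i))⁻¹ := by
      change ((A.e γ v ^ 1 * (∏ i, (c i).e γ v ^ (1 * β i))⁻¹) ^ M * P.e γ v) ^ K =
        A.e γ v ^ (M * K) * P.e γ v ^ K * _
      have h3 : (∏ i, (c i).e γ v ^ (M * K * β i)) = (∏ i, (c i).e γ v ^ (1 * β i)) ^ (M * K) := by
        rw [← Finset.prod_pow]
        exact Finset.prod_congr rfl fun i _ => by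
          rw [← pow_mul]
          congr 1
          ring
      rw [h3, pow_one, mul_pow, ← pow_mul, mul_pow, inv_pow]
      ring
    have hW0 : (∏ i, (c i).e γ v ^ (M * K * β i)) ≠ 0 :=
      Finset.prod_ne_zero_iff.2 fun i _ => pow_ne_zero _ ((c i).ne_zero γ v)
    rw [h1, h2]
    field_simp

/-- The exponent. -/
def expN (g N₀ : ℕ) : ℕ := mink g * (4 * N₀ * mink g ^ 3)

/-- Generalised abundance. -/
theorem main (hS : IsSmoothFan u S) (hΓ : IsTorusQuotient Γ) {g : ℕ}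
    (hg : Module.finrank ℂ V ≤ g) (hc : ∀ i, IsChernForm (c i) (Hc i))
    {N₀ : ℕ} (hN₀ : 0 < N₀) (hDL : ∀ q : Fin n → ℤ, N₀ • q ∈ DL Δ)
    (hklt : IsKltY S Δ) (heff : IsFibreEff u (adjA Δ)) {m : ℕ} {K : LineBundle Γ}
    {HK : V → V → ℂ} (hK : IsPluricanonical Γ m K HK) {a : ι → ℤ} {A : LineBundle Γ}
    {HA : V → V → ℂ} (hA : IsChernForm A HA) {t : ℝ} (hnef : IsNefR u S Hc (fun i => (a i : ℝ)) HA)
    (hadj : IsNefR u S Hc (fun i => t * a i - adjA Δ i)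
      fun v w => t * HA v w - adjH m HK Hc Δ v w) :
    ∃ P : LineBundle Γ, IsFlat P ∧
      IsGG u S c (fun i => expN g N₀ * a i) (tensor (A.pow (expN g N₀)) P).e := by
  classical
  have hGx : ∀ i, ∃ G : V → ℂ, IsPot (c i) (Hc i) G := fun i => by
    obtain ⟨-, G, hG1, hG2⟩ := hc i
    exact ⟨G, hG1, hG2⟩
  choose G hG using hGx
  obtain ⟨PA, hPA⟩ : ∃ PA : V → ℂ, IsPot A HA PA := by
    obtain ⟨-, G, hG1, hG2⟩ := hA
    exact ⟨G, hG1, hG2⟩
  have htor : ∀ (b : V) (hb : b ∈ latt Γ), KV Hc Δ b → ∀ (q : Fin n → ℤ) (v : V),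
      fac u c G q (tr b hb) v ^ N₀ = 1 := fun b hb hkv q v => by
    rw [← fac_smul]
    exact fac_DL' hΓ hc hG hb hkv (hDL q) v
  have hrep : ∀ σ, ∃ β : ι → ℕ, IsMax S σ → (∀ i ∈ σ, β i = 0) ∧
      LinEquiv u (fun i => (β i : ℤ)) a ∧
        ∀ v, 0 ≤ (HA v v - ∑ i, ((β i : ℕ) : ℂ) * Hc i v v).re := by
    intro σ
    by_cases hσ : IsMax S σ
    · obtain ⟨β, h0, hz, h1, h2⟩ := hnef σ hσ
      obtain ⟨β', h3, h4⟩ := int_rep hS hσ h0 hz h1
      refine ⟨β', fun _ => ⟨fun i hi => ?_, h4, fun v => ?_⟩⟩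
      · have h5 := h3 i
        rw [hz i hi] at h5
        exact_mod_cast h5
      · have h6 : ∑ i, ((β' i : ℕ) : ℂ) * Hc i v v = ∑ i, (β i : ℂ) * Hc i v v :=
          Finset.sum_congr rfl fun i _ => by rw [← h3 i]; push_cast; rfl
        rw [h6]
        exact h2 v
    · exact ⟨0, fun h => absurd h hσ⟩
  choose β hβ using hrep
  obtain ⟨σ₀, hσ₀, -⟩ := exists_max hS.empty_mem
  let Lσ : Set ι → LineBundle Γ := fun σ => Q47.TB.tw A c 1 (β σ)
  let Hσ : Set ι → V → V → ℂ := fun σ v w =>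
    ((1 : ℕ) : ℂ) * (HA v w - ∑ i, ((β σ i : ℕ) : ℂ) * Hc i v w)
  let Fσ : Set ι → V → ℂ := fun σ v => PA v - ∑ i, (β σ i : ℂ) * G i v
  have hherm : ∀ σ, IsHermitian (Hσ σ) := fun σ => (chern_tw hA hc 1 (β σ)).1
  have hpot : ∀ σ, IsPot (Lσ σ) (Hσ σ) (Fσ σ) := fun σ => pot_tw hPA hG (β σ)
  have hnefσ : ∀ σ, IsMax S σ → IsNefForm (Hσ σ) := by
    intro σ hσ v
    change 0 ≤ (((1 : ℕ) : ℂ) * (HA v v - ∑ i, ((β σ i : ℕ) : ℂ) * Hc i v v)).re
    rw [Nat.cast_one, one_mul]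
    exact (hβ σ hσ).2.2 v
  have hfin := finite_Lin hΓ
  have : Fintype (Lin Γ) := Fintype.ofFinite _
  have hM : 0 < Nat.card (Lin Γ) := Nat.card_pos
  obtain ⟨ℓ, hℓ, hχ⟩ := exists_inv_real hΓ (hherm σ₀) (hpot σ₀)
  set M := Nat.card (Lin Γ) with hMdef
  have hℓ' : ∀ γ ∈ Γ, ∀ v, (-ℓ) (γ.linear v) = (-ℓ) v := fun γ hγ v => by
    rw [LinearMap.neg_apply, LinearMap.neg_apply, hℓ γ hγ]
  let P := flat (-ℓ) hℓ'
  have hP : IsFlat P := flat_isFlat _ _
  have hroot : ∀ σ, IsMax S σ → ∀ b ∈ latt Γ, b ∈ ker (herm_nat (hherm σ) M) →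
      chi (tensor ((Lσ σ).pow M) P) (fun v => (M : ℂ) * Fσ σ v) b ^ (M * N₀) = 1 := by
    intro σ hσ b hb hbK'
    have hM0 : (M : ℂ) ≠ 0 := by exact_mod_cast hM.ne'
    have hbK : b ∈ ker (hherm σ) := fun w =>
      (mul_eq_zero.1 (hbK' w)).resolve_left hM0
    obtain ⟨hb1, hb2, hb3⟩ := chi_sum' (hherm σ) (hpot σ) hb hbK Finset.univ
    set b' : V := ∑ g ∈ (Finset.univ : Finset (Lin Γ)), g.1 b with hb'
    have hcard : (Finset.univ : Finset (Lin Γ)).card = M := by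
      rw [Finset.card_univ, hMdef, Nat.card_eq_fintype_card]
    rw [hcard] at hb3
    have hfix : ∀ γ ∈ Γ, γ.linear b' = b' := by
      intro γ hγ
      let h : Lin Γ := ⟨γ.linear, γ, hγ, rfl⟩
      change h.1 b' = b'
      rw [hb', map_sum]
      exact Fintype.sum_equiv (Equiv.mulLeft h) _ _ fun g => rfl
    have hℓb : ℓ b' = M * ℓ b := by
      rw [hb', map_sum]
      have h1 : ∀ g : Lin Γ, ℓ (g.1 b) = ℓ b := by
        rintro ⟨g, γ, hγ, rfl⟩
        exact hℓ γ hγ b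
      rw [Finset.sum_congr rfl fun g _ => h1 g, Finset.sum_const, hcard, nsmul_eq_mul]
    have hkv : KV Hc Δ b' := by
      refine kv_of_nef hS hΓ hc hklt heff hK hnef hadj hfix (β := fun i => (β σ i : ℝ))
        (fun i => Nat.cast_nonneg _) ?_ ?_
      · obtain ⟨p, hp⟩ := (hβ σ hσ).2.1
        refine ⟨fun k => p k, fun i => ?_⟩
        have h1 : ((β σ i : ℤ) : ℝ) = ((a i + ∑ k, p k * u i k : ℤ) : ℝ) :=
          congrArg (fun z : ℤ => (z : ℝ)) (hp i)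
        push_cast at h1
        exact h1
      · have h1 := hb2 b'
        change ((1 : ℕ) : ℂ) * (HA b' b' - ∑ i, ((β σ i : ℕ) : ℂ) * Hc i b' b') = 0 at h1
        rw [Nat.cast_one, one_mul] at h1
        have h2 : HA b' b' - ∑ i, (((β σ i : ℕ) : ℝ) : ℂ) * Hc i b' b' = 0 := by
          rw [← h1]
          simp only [Complex.ofReal_natCast]
        rw [h2, Complex.zero_re]
    -- the comparison of the two representatives
    obtain ⟨p₀, hp₀⟩ := (hβ σ₀ hσ₀).2.1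
    obtain ⟨p₁, hp₁⟩ := (hβ σ hσ).2.1
    let q : Fin n → ℤ := fun k => p₀ k - p₁ k
    have hq : ∀ i, (β σ₀ i : ℤ) - β σ i = mq u q i := by
      intro i
      have h1 := hp₀ i
      have h2 := hp₁ i
      change (β σ₀ i : ℤ) = _ at h1
      change (β σ i : ℤ) = _ at h2
      rw [h1, h2]
      simp only [mq, q, sub_mul, Finset.sum_sub_distrib]
      ring
    have hb0K : b' ∈ ker (hherm σ₀) := by
      intro w
      have h1 := hb2 w
      change ((1 : ℕ) : ℂ) * (HA b' w - ∑ i, ((β σ i : ℕ) : ℂ) * Hc i b' w) = 0 at h1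
      change ((1 : ℕ) : ℂ) * (HA b' w - ∑ i, ((β σ₀ i : ℕ) : ℂ) * Hc i b' w) = 0
      have h2 := hkv.2 (fun k => (q k : ℝ)) w
      rw [← cf_int] at h2
      have h3 : ∑ i, (mq u q i : ℂ) * Hc i b' w =
          ∑ i, ((β σ₀ i : ℕ) : ℂ) * Hc i b' w - ∑ i, ((β σ i : ℕ) : ℂ) * Hc i b' w := by
        rw [← Finset.sum_sub_distrib]
        refine Finset.sum_congr rfl fun i _ => ?_
        rw [← hq i]
        push_cast
        ring
      rw [h3] at h2
      rw [Nat.cast_one, one_mul] at h1 ⊢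
      linear_combination h1 - h2
    have hχ0 := hχ b' hb1 hb0K
    have hχσ : ∀ τ, chi (Lσ τ) (Fσ τ) b' = TQ.tw A PA (tr b' hb1) 0 *
        (∏ i, TQ.tw (c i) (G i) (tr b' hb1) 0 ^ β τ i)⁻¹ := by
      intro τ
      rw [chi_eq hb1]
      exact tw_tw A PA (β τ) (tr b' hb1) 0
    have hfacN := htor b' hb1 hkv q 0
    have hrel : chi (Lσ σ) (Fσ σ) b' = chi (Lσ σ₀) (Fσ σ₀) b' * fac u c G q (tr b' hb1) 0 := by
      rw [hχσ, hχσ]
      unfold fac
      have h2 : ∀ i, TQ.tw (c i) (G i) (tr b' hb1) 0 ^ mq u q i =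
          TQ.tw (c i) (G i) (tr b' hb1) 0 ^ β σ₀ i / TQ.tw (c i) (G i) (tr b' hb1) 0 ^ β σ i := by
        intro i
        rw [← hq, zpow_sub₀ (tw_ne_zero _ _), zpow_natCast, zpow_natCast]
      rw [Finset.prod_congr rfl fun i _ => h2 i, Finset.prod_div_distrib]
      have h3 : (∏ i, TQ.tw (c i) (G i) (tr b' hb1) 0 ^ β σ₀ i) ≠ 0 :=
        Finset.prod_ne_zero_iff.2 fun i _ => pow_ne_zero _ (tw_ne_zero _ _)
      field_simp
    have hrelN : chi (Lσ σ) (Fσ σ) b' ^ N₀ = chi (Lσ σ₀) (Fσ σ₀) b' ^ N₀ := by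
      rw [hrel, mul_pow, hfacN, mul_one]
    -- the conclusion
    rw [chi_tensor (-ℓ) hℓ' M hb, ← hb3]
    set E := Complex.exp ((ℓ b : ℂ) * Complex.I) with hE
    have hE0 : E ≠ 0 := Complex.exp_ne_zero _
    have h1 : Complex.exp ((((-ℓ) b : ℝ) : ℂ) * Complex.I) = E⁻¹ := by
      rw [hE, ← Complex.exp_neg, LinearMap.neg_apply]
      congr 1
      push_cast
      ring
    have h2 : E ^ M = chi (Lσ σ₀) (Fσ σ₀) b' ^ M := by
      rw [← hχ0, hE, ← Complex.exp_nat_mul, hℓb]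
      congr 1
      push_cast
      ring
    rw [h1, mul_pow, inv_pow, pow_mul E, h2, mul_comm M N₀, pow_mul, hrelN, ← pow_mul, ← pow_mul,
      mul_comm M N₀]
    refine mul_inv_cancel₀ (pow_ne_zero _ ?_)
    rw [hχσ]
    exact mul_ne_zero (tw_ne_zero _ _) (inv_ne_zero
      (Finset.prod_ne_zero_iff.2 fun i _ => pow_ne_zero _ (tw_ne_zero _ _)))
  have hgg : ∀ σ, IsMax S σ → GG ((tensor ((Lσ σ).pow M) P).pow
      (M * (M * N₀) * (4 * mink (Module.finrank ℂ V)))) := by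
    intro σ hσ
    have hn : IsNefForm fun v w => (M : ℂ) * Hσ σ v w := nef_smul (hnefσ σ hσ)
    exact gg_of_root' hΓ (herm_nat (hherm σ) M) (pot_tensor (hpot σ) hP M) hn
      (Nat.mul_pos hM hN₀) (hroot σ hσ)
  -- the exponents
  obtain ⟨M', hM'⟩ : M ∣ mink g := (card_Lin_dvd hΓ).trans (mink_dvd hg)
  have hmd : mink (Module.finrank ℂ V) ∣ mink g := mink_dvd hg
  set K' : ℕ := M' * (4 * N₀ * mink g ^ 3) with hK'
  have hNK : expN g N₀ = M * K' := by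
    rw [expN, hK']
    nth_rewrite 1 [hM']
    ring
  have hdvd : M * (M * N₀) * (4 * mink (Module.finrank ℂ V)) ∣ K' := by
    have h1 : M * (M * N₀) * (4 * mink (Module.finrank ℂ V)) ∣
        mink g * (mink g * N₀) * (4 * mink g) :=
      Nat.mul_dvd_mul (Nat.mul_dvd_mul ⟨M', hM'⟩ (Nat.mul_dvd_mul ⟨M', hM'⟩ (dvd_refl _)))
        (Nat.mul_dvd_mul (dvd_refl _) hmd)
    refine h1.trans ⟨M', ?_⟩
    rw [hK']
    ring
  rw [hNK]
  refine ⟨P.pow K', ⟨fun γ v w => ?_, fun γ v => ?_⟩, ?_⟩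
  · change P.e γ v ^ K' = P.e γ w ^ K'
    rw [hP.1 γ v w]
  · change ‖P.e γ v ^ K'‖ = 1
    rw [norm_pow, hP.2, one_pow]
  · intro v x hx
    obtain ⟨σ, hσ, hxσ⟩ := exists_max hx
    obtain ⟨s, hs, hs0⟩ := (hgg σ hσ).mul hdvd v
    refine ⟨_, isSection_mono (hβ σ hσ).2.1 hs, ?_⟩
    rw [eval_monomial, Finsupp.prod_fintype _ _ fun i => pow_zero _]
    refine mul_ne_zero hs0 (Finset.prod_ne_zero_iff.2 fun i _ => ?_)
    simp only [Finsupp.equivFunOnFinite_symm_apply_apply]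
    by_cases h : x i = 0
    · rw [(hβ σ hσ).1 i (hxσ h), mul_zero, pow_zero]
      exact one_ne_zero
    · exact pow_ne_zero _ h

end Run7.h323.GA
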