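import Pool.Agent.Run7.h323.GA.Ker
import Pool.Agent.Run7.h323.CC.Lift

/-!
# Generalised abundance: the twists are torsion in the directions in which the nef class vanishes
-/

set_option autoImplicit false
set_option linter.unusedSectionVars false

namespace Run7.h323.GA

open Pool.Agent.W594.SYZ2 Pool.Agent.TH735.AQ Pool.Agent.TH128.SYZ
open Q47.TB Run7.h323.TQ Run7.h323.CC MvPolynomial
open Pool.Agent.W594.SYZ2.TQ (IsPot ker h_isotropic tr tr_apply tw_mul tw_add_ker tw_tr_ker chi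
  chi_eq chi_add chi_zero tw_ne_zero h_add_right mem_ker)
open Pool.Agent.Y167 (AffGrp section_ker)

variable {V : Type*} [NormedAddCommGroup V] [NormedSpace ℂ V] [FiniteDimensional ℂ V] {Γ : AffGrp V}
  {ι : Type*} [Fintype ι] {n : ℕ} {u : ι → Fin n → ℤ} {S : Set (Set ι)} {c : ι → LineBundle Γ}
  {Hc : ι → V → V → ℂ} {κ : Type*} [Fintype κ] {Δ : EffDivY u c κ} {G : ι → V → ℂ}

/-- The factor of a translation by a lattice vector in the kernel. -/
theorem fac_occ' (hΓ : IsTorusQuotient Γ) (hc : ∀ i, IsChernForm (c i) (Hc i))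
    (hG : ∀ i, IsPot (c i) (Hc i) (G i)) {k : κ} (hk : Δ.r k ≠ 0) {P : V → ℂ}
    (hP : IsPot (Δ.L k) (Δ.H k) P) {b : V} (hb : b ∈ latt Γ) (hkv : KV Hc Δ b)
    {α : ι →₀ ℕ} (hα : Occ Δ k α) (x : V) :
    TQ.tw (Δ.L k) P (tr b hb) x = ∏ i, TQ.tw (c i) (G i) (tr b hb) x ^ α i := by
  have hherm : IsHermitian fun v w =>
      ((1 : ℕ) : ℂ) * (Δ.H k v w - ∑ i, ((α i : ℕ) : ℂ) * Hc i v w) :=
    (chern_tw (Δ.chern k) hc 1 fun i => α i).1
  have hkr : b ∈ ker hherm := fun w => by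
    have := hkv.1 k hk α hα w
    change ((1 : ℕ) : ℂ) * (Δ.H k b w - ∑ i, ((α i : ℕ) : ℂ) * Hc i b w) = 0
    rw [this, mul_zero]
  have hall := fun x => tw_tr_ker hherm (pot_tw hP hG fun i => α i) hb hkr x
  obtain ⟨v, hv⟩ := hα
  have h1 := section_ker hΓ hherm (pot_tw hP hG fun i => α i)
    (coeff_section (Δ.sect k) α) hkr v
  have h2 := (coeff_section (Δ.sect k) α).eq (tr b hb) v
  rw [tr_apply, add_comm] at h2
  have h3 : TQ.tw (Q47.TB.tw (Δ.L k) c 1 fun i => α i)
      (fun v => P v - ∑ i, (α i : ℂ) * G i v) (tr b hb) v = 1 := by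
    unfold TQ.tw
    rw [tr_apply, add_comm b v, Complex.exp_sub]
    rw [Complex.exp_neg, Complex.exp_neg, h2] at h1
    have n1 := Complex.exp_ne_zero (P (v + b) - ∑ i, (α i : ℂ) * G i (v + b))
    have n2 := Complex.exp_ne_zero (P v - ∑ i, (α i : ℂ) * G i v)
    field_simp at h1 ⊢
    linear_combination h1
  have h4 := (hall x).trans ((hall v).symm.trans h3)
  rw [tw_tw] at h4
  have h5 : ∏ i, TQ.tw (c i) (G i) (tr b hb) x ^ α i ≠ 0 :=
    Finset.prod_ne_zero_iff.2 fun i _ => pow_ne_zero _ (tw_ne_zero _ _)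
  field_simp at h4
  exact h4

theorem fac_DL' (hΓ : IsTorusQuotient Γ) (hc : ∀ i, IsChernForm (c i) (Hc i))
    (hG : ∀ i, IsPot (c i) (Hc i) (G i)) {b : V} (hb : b ∈ latt Γ) (hkv : KV Hc Δ b)
    {q : Fin n → ℤ} (hq : q ∈ DL Δ) (v : V) :
    fac u c G q (tr b hb) v = 1 := by
  induction hq using AddSubgroup.closure_induction with
  | mem q hq =>
    obtain ⟨k, hk, α, β, hα, hβ, hq⟩ := hq
    obtain ⟨hH, P, hP1, hP2⟩ := Δ.chern k
    have hP : IsPot (Δ.L k) (Δ.H k) P := ⟨hP1, hP2⟩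
    unfold fac
    have h1 := fac_occ' hΓ hc hG hk hP hb hkv hα v
    rw [fac_occ' hΓ hc hG hk hP hb hkv hβ v] at h1
    have h2 : ∀ i, TQ.tw (c i) (G i) (tr b hb) v ^ mq u q i =
        TQ.tw (c i) (G i) (tr b hb) v ^ α i / TQ.tw (c i) (G i) (tr b hb) v ^ β i := by
      intro i
      rw [← hq, zpow_sub₀ (tw_ne_zero _ _), zpow_natCast, zpow_natCast]
    rw [Finset.prod_congr rfl fun i _ => h2 i, Finset.prod_div_distrib, ← h1, div_self]
    exact Finset.prod_ne_zero_iff.2 fun i _ => pow_ne_zero _ (tw_ne_zero _ _)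
  | zero => exact fac_zero G _ _
  | add p q _ _ hp hq => rw [fac_add, hp, hq, mul_one]
  | neg q _ hq => exact fac_neg G q _ _ hq

/-- The differences of the exponents span a subgroup of finite index. -/
theorem exists_N' (hS : IsSmoothFan u S) (hklt : IsKltY S Δ) (heff : IsFibreEff u (adjA Δ)) :
    ∃ N : ℕ, 0 < N ∧ ∀ q : Fin n → ℤ, N • q ∈ DL Δ := by
  classical
  obtain ⟨v, hklt⟩ := hklt
  let Q : Submodule ℚ (Fin n → ℚ) :=
    { carrier := {x | ∃ N : ℕ, 0 < N ∧ ∃ a ∈ DL Δ, ∀ k, (N : ℚ) * x k = a k}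
      add_mem' := by
        rintro x y ⟨N, hN, a, ha, h1⟩ ⟨M, hM, b, hb, h2⟩
        refine ⟨N * M, Nat.mul_pos hN hM, M • a + N • b,
          (DL Δ).add_mem ((DL Δ).nsmul_mem ha M) ((DL Δ).nsmul_mem hb N), fun k => ?_⟩
        rw [Pi.add_apply, Pi.add_apply, Pi.smul_apply, Pi.smul_apply]
        push_cast
        rw [nsmul_eq_mul, nsmul_eq_mul]
        push_cast
        rw [← h1, ← h2]
        ring
      zero_mem' := ⟨1, one_pos, 0, (DL Δ).zero_mem, fun k => by simp⟩
      smul_mem' := by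
        rintro t x ⟨N, hN, a, ha, h1⟩
        refine ⟨N * t.den, Nat.mul_pos hN t.den_pos, t.num • a, (DL Δ).zsmul_mem ha _, fun k => ?_⟩
        rw [Pi.smul_apply, Pi.smul_apply, smul_eq_mul, smul_eq_mul]
        push_cast
        rw [← h1]
        have hq : (t.num : ℚ) = t * t.den := (t.mul_den_eq_num).symm
        rw [hq]
        ring }
  have hQ : Q = ⊤ := by
    by_contra hne
    obtain ⟨f, hf0, hf⟩ := Submodule.exists_le_ker_of_lt_top Q (lt_top_iff_ne_top.2 hne)
    apply hf0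
    have h1 : (fun l => ((f (Pi.single l 1) : ℚ) : ℝ)) = (0 : Fin n → ℝ) := by
      refine diff_span' hS heff hklt fun q hq => ?_
      obtain ⟨k, hk, α, β, hα, hβ, hαβ⟩ := hq
      -- the real vector `q` is integral
      obtain ⟨σ, hσ, -⟩ := exists_max hS.empty_mem
      obtain ⟨b, hb⟩ := exists_dual hS hσ
      let p : Fin n → ℤ := fun l => ∑ i, b l i * ((α i : ℤ) - β i)
      have hp : ∀ l, (p l : ℝ) = q l := by
        intro l
        have h2 := hb.principal q l
        rw [← h2]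
        simp only [p]
        push_cast
        exact Finset.sum_congr rfl fun i _ => by rw [hαβ]
      have hpm : p ∈ DL Δ := by
        refine AddSubgroup.subset_closure ⟨k, hk, α, β, hα, hβ, fun i => ?_⟩
        have h2 := hαβ i
        unfold mq
        have h3 : (((α i : ℤ) - β i : ℤ) : ℝ) = ((∑ l, p l * u i l : ℤ) : ℝ) := by
          push_cast
          rw [h2]
          exact Finset.sum_congr rfl fun l _ => by rw [hp]
        exact_mod_cast h3
      have h2 : (fun l => (p l : ℚ)) ∈ Q := ⟨1, one_pos, p, hpm, fun k => by simp⟩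
      have h3 : f (fun l => (p l : ℚ)) = 0 := hf h2
      rw [f.pi_apply_eq_sum_univ] at h3
      have h4 := congrArg (fun z : ℚ => (z : ℝ)) h3
      simp only [smul_eq_mul, Rat.cast_zero] at h4
      rw [← h4]
      push_cast
      refine Finset.sum_congr rfl fun l _ => ?_
      rw [hp]
      congr 2
      congr 1
      funext l'
      rw [Pi.single_apply]
      by_cases h : l = l'
      · rw [if_pos h, if_pos h.symm]
      · rw [if_neg h, if_neg (Ne.symm h)]
    refine LinearMap.pi_ext' fun l => LinearMap.ext_ring ?_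
    have h2 := congrFun h1 l
    simp only [Pi.zero_apply] at h2
    have h3 : f (Pi.single l 1) = 0 := by exact_mod_cast h2
    exact h3
  have h1 : ∀ q : Fin n → ℤ, ∃ N : ℕ, 0 < N ∧ N • q ∈ DL Δ := by
    intro q
    have h2 : (fun l => (q l : ℚ)) ∈ Q := by
      rw [hQ]
      exact Submodule.mem_top
    obtain ⟨N, hN, a, ha, h3⟩ := h2
    refine ⟨N, hN, ?_⟩
    have h4 : N • q = a := by
      funext k
      have h5 : (N : ℚ) * (q k : ℚ) = a k := h3 k
      rw [Pi.smul_apply, nsmul_eq_mul]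
      exact_mod_cast h5
    rw [h4]
    exact ha
  choose N hN hNq using fun l : Fin n => h1 (Pi.single l 1)
  refine ⟨∏ l, N l, Finset.prod_pos fun l _ => hN l, fun q => ?_⟩
  have h2 : q = ∑ l, q l • (Pi.single l (1 : ℤ) : Fin n → ℤ) := by
    funext k
    rw [Finset.sum_apply]
    simp only [Pi.smul_apply, smul_eq_mul, Pi.single_apply]
    simp
  rw [h2, Finset.smul_sum]
  refine (DL Δ).sum_mem fun l _ => ?_
  rw [smul_comm]
  refine (DL Δ).zsmul_mem ?_ _
  rw [← Finset.prod_erase_mul Finset.univ _ (Finset.mem_univ l), mul_smul]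
  exact (DL Δ).nsmul_mem (hNq l) _

/-- The twists are torsion on the lattice vectors in the kernel. -/
theorem exists_torsion (hS : IsSmoothFan u S) (hΓ : IsTorusQuotient Γ)
    (hc : ∀ i, IsChernForm (c i) (Hc i)) (hG : ∀ i, IsPot (c i) (Hc i) (G i))
    (hklt : IsKltY S Δ) (heff : IsFibreEff u (adjA Δ)) :
    ∃ N : ℕ, 0 < N ∧ ∀ (b : V) (hb : b ∈ latt Γ), KV Hc Δ b → ∀ (q : Fin n → ℤ) (v : V),
      fac u c G q (tr b hb) v ^ N = 1 := by
  obtain ⟨N, hN, h⟩ := exists_N' hS hklt heff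
  refine ⟨N, hN, fun b hb hkv q v => ?_⟩
  rw [← fac_smul]
  exact fac_DL' hΓ hc hG hb hkv (h q) v

end Run7.h323.GA
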