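import Pool.Agent.Run7.h323.GA.Tor

/-!
# Generalised abundance: the order of the torsion depends only on the fan and the degrees
-/

set_option autoImplicit false
set_option linter.unusedSectionVars false

namespace Run7.h323.GA

open Pool.Agent.W594.SYZ2
open Q47.TB Run7.h323.TQ Run7.h323.CC MvPolynomial
open Pool.Agent.Y167 (AffGrp)

section fan

variable {ι : Type*} [Fintype ι] {n : ℕ} {u : ι → Fin n → ℤ} {S : Set (Set ι)}

/-- There are finitely many monomials of a given degree. -/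
theorem finite_lin (hS : IsSmoothFan u S) (d : ι → ℤ) :
    {α : ι →₀ ℕ | LinEquiv u (fun i => (α i : ℤ)) d}.Finite := by
  classical
  obtain ⟨a, ⟨-, ha⟩, -⟩ := hS.rep fun k => -∑ i, u i k
  have h0 : ∀ k, ∑ i, ((a i : ℤ) + 1) * u i k = 0 := by
    intro k
    simp only [add_mul, one_mul, Finset.sum_add_distrib]
    rw [ha k]
    ring
  let C : ℕ := (∑ i, ((a i : ℤ) + 1) * d i).toNat
  have h1 : ∀ α : ι →₀ ℕ, LinEquiv u (fun i => (α i : ℤ)) d → ∀ i, α i ≤ C := by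
    rintro α ⟨p, hp⟩ i
    replace hp : ∀ i, (α i : ℤ) = d i + ∑ k, p k * u i k := hp
    have h2 : ∑ i, ((a i : ℤ) + 1) * (α i : ℤ) = ∑ i, ((a i : ℤ) + 1) * d i := by
      have h3 : ∑ i, ((a i : ℤ) + 1) * ∑ k, p k * u i k = 0 := by
        calc ∑ i, ((a i : ℤ) + 1) * ∑ k, p k * u i k =
            ∑ k, p k * ∑ i, ((a i : ℤ) + 1) * u i k := by
              simp only [Finset.mul_sum]
              rw [Finset.sum_comm]
              exact Finset.sum_congr rfl fun k _ => Finset.sum_congr rfl fun i _ => by ring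
          _ = 0 := by simp only [h0, mul_zero, Finset.sum_const_zero]
      rw [Finset.sum_congr rfl fun i _ => by rw [hp i]]
      simp only [mul_add, Finset.sum_add_distrib]
      rw [h3, add_zero]
    have h4 : (α i : ℤ) ≤ ∑ i, ((a i : ℤ) + 1) * (α i : ℤ) := by
      refine le_trans ?_ (Finset.single_le_sum (f := fun i => ((a i : ℤ) + 1) * (α i : ℤ))
        (fun i _ => by positivity) (Finset.mem_univ i))
      have h5 : (0 : ℤ) ≤ (a i : ℤ) * (α i : ℤ) := by positivity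
      change (α i : ℤ) ≤ ((a i : ℤ) + 1) * (α i : ℤ)
      rw [add_mul, one_mul]
      linarith
    rw [h2] at h4
    have h6 : ((α i : ℤ)).toNat ≤ C := Int.toNat_le_toNat h4
    rwa [Int.toNat_natCast] at h6
  refine Set.Finite.subset (Set.finite_Iic (Finsupp.equivFunOnFinite.symm fun _ => C)) ?_
  intro α hα i
  rw [Finsupp.equivFunOnFinite_symm_apply_apply]
  exact h1 α hα i

/-- The group generated by the differences of given exponents. -/
def DLs {κ : Type*} (u : ι → Fin n → ℤ) (R : Set κ) (X : κ → Set (ι →₀ ℕ)) :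
    AddSubgroup (Fin n → ℤ) :=
  AddSubgroup.closure {q | ∃ k, k ∈ R ∧ ∃ α β : ι →₀ ℕ, α ∈ X k ∧ β ∈ X k ∧
    ∀ i, (α i : ℤ) - β i = mq u q i}

/-- One exponent for all sets of exponents of given degrees. -/
theorem exists_uniform {κ : Type*} [Finite κ] (hS : IsSmoothFan u S) (d : κ → ι → ℤ) :
    ∃ N : ℕ, 0 < N ∧ ∀ (R : Set κ) (X : κ → Set (ι →₀ ℕ)),
      (∀ k, X k ⊆ {α | LinEquiv u (fun i => (α i : ℤ)) (d k)}) →
      (∃ N' : ℕ, 0 < N' ∧ ∀ q : Fin n → ℤ, N' • q ∈ DLs u R X) →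
        ∀ q : Fin n → ℤ, N • q ∈ DLs u R X := by
  classical
  have hfin : {X : κ → Set (ι →₀ ℕ) | ∀ k, X k ∈
      𝒫 {α : ι →₀ ℕ | LinEquiv u (fun i => (α i : ℤ)) (d k)}}.Finite :=
    Set.Finite.pi' fun k => (finite_lin hS (d k)).powerset
  have hfin2 : ((Set.univ : Set (Set κ)) ×ˢ {X : κ → Set (ι →₀ ℕ) | ∀ k, X k ∈
      𝒫 {α : ι →₀ ℕ | LinEquiv u (fun i => (α i : ℤ)) (d k)}}).Finite :=
    Set.Finite.prod Set.finite_univ hfin
  have hex : ∀ p : Set κ × (κ → Set (ι →₀ ℕ)), ∃ N' : ℕ, 0 < N' ∧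
      ((∃ N' : ℕ, 0 < N' ∧ ∀ q : Fin n → ℤ, N' • q ∈ DLs u p.1 p.2) →
        ∀ q : Fin n → ℤ, N' • q ∈ DLs u p.1 p.2) := by
    intro p
    by_cases h : ∃ N' : ℕ, 0 < N' ∧ ∀ q : Fin n → ℤ, N' • q ∈ DLs u p.1 p.2
    · obtain ⟨N', hN', h1⟩ := h
      exact ⟨N', hN', fun _ => h1⟩
    · exact ⟨1, one_pos, fun h' => absurd h' h⟩
  choose N' hN' h using hex
  refine ⟨∏ p ∈ hfin2.toFinset, N' p, Finset.prod_pos fun p _ => hN' p, fun R X hX hRX q => ?_⟩
  have hmem : (R, X) ∈ hfin2.toFinset := by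
    rw [Set.Finite.mem_toFinset]
    exact ⟨Set.mem_univ _, fun k => hX k⟩
  rw [← Finset.prod_erase_mul _ _ hmem, mul_smul, smul_comm]
  rw [smul_comm]
  exact (DLs u R X).nsmul_mem (h (R, X) hRX q) _

end fan

variable {V : Type*} [NormedAddCommGroup V] [NormedSpace ℂ V] {Γ : AffGrp V}
  {ι : Type*} [Fintype ι] {n : ℕ} {u : ι → Fin n → ℤ} {S : Set (Set ι)} {c : ι → LineBundle Γ}
  {κ : Type*} [Fintype κ]

theorem occ_deg {Δ : EffDivY u c κ} {k : κ} {α : ι →₀ ℕ} (hα : Occ Δ k α) :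
    LinEquiv u (fun i => (α i : ℤ)) (Δ.d k) := by
  obtain ⟨v, hv⟩ := hα
  exact (Δ.sect k).deg v α (mem_support_iff.2 hv)

theorem DL_eq (Δ : EffDivY u c κ) : DL Δ = DLs u {k | Δ.r k ≠ 0} fun k => {α | Occ Δ k α} := rfl

end Run7.h323.GA
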